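import Pool.Agent.Helper78.KS.Lin

/-!
For every `k ≥ 4` the cone `C_k` of linear inequalities that hold, up to a logarithmic term, for
the Kolmogorov complexities of tuples of `k` strings is not semialgebraic: there is no description
of it by finitely many polynomial equations and inequalities.
-/

set_option autoImplicit false

namespace Pool.Agent.Results.MP_b69f85_lc.NotSemialgebraic

/-- `U` is a self-delimiting machine: a partial computable map on binary strings such that no
program in its domain is a proper initial segment of another program in its domain. -/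
def SelfDelimiting (U : List Bool →. List Bool) : Prop :=
  Partrec U ∧ ∀ p q : List Bool, (U p).Dom → (U q).Dom → p <+: q → p = q

/-- `U` is an optimal self-delimiting machine: for every self-delimiting machine `V` there is `c`
such that whatever `V` produces from a program `p`, `U` produces from some program of length at
most `|p| + c`. -/
def OptimalMachine (U : List Bool →. List Bool) : Prop :=
  SelfDelimiting U ∧ ∀ V : List Bool →. List Bool, SelfDelimiting V →
    ∃ c : ℕ, ∀ p x : List Bool, x ∈ V p → ∃ q : List Bool, x ∈ U q ∧ q.length ≤ p.length + c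

/-- complexity with respect to `U`: the least length of a program `p` with `U(p) = x` -/
noncomputable def KP (U : List Bool →. List Bool) (x : List Bool) : ℕ :=
  sInf {l : ℕ | ∃ p : List Bool, p.length = l ∧ x ∈ U p}

/-- `K` is a version of Kolmogorov complexity: it agrees, up to a logarithmic term, with the
complexity with respect to an optimal self-delimiting machine. -/
def Complexity (K : List Bool → ℝ) : Prop :=
  ∃ U : List Bool →. List Bool, OptimalMachine U ∧
    ∃ c : ℝ, ∀ x : List Bool, |K x - KP U x| ≤ c * Real.log ((KP U x : ℝ) + 2)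

/-- the subtuple `A^u`, in increasing order of indices -/
def subtuple {k : ℕ} (A : Fin k → List Bool) (u : Finset (Fin k)) : List (List Bool) :=
  ((List.finRange k).filter (fun i => decide (i ∈ u))).map A

/-- The cone `C_k`: the set of all vectors `lam`, indexed by the non-empty subsets of
`{1, ..., k}`, for which there is a constant `c` such that `∑_u lam_u K(A^u) ≥ -c log n` for every
`n ≥ 2` and all strings `A_1, ..., A_k` of length at most `n`. -/
def cone (K : List Bool → ℝ) (enc : List (List Bool) → List Bool) (k : ℕ) :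
    Set ({u : Finset (Fin k) // u.Nonempty} → ℝ) :=
  {lam | ∃ c : ℝ, ∀ n : ℕ, 2 ≤ n → ∀ A : Fin k → List Bool, (∀ i, (A i).length ≤ n) →
    -c * Real.log n ≤ ∑ u, lam u * K (enc (subtuple A u.1))}

/-- `C` is a finite union of sets `{x : f x = 0, g_1 x > 0, ..., g_m x > 0}` with real polynomials
`f, g_1, ..., g_m`. -/
def Semialgebraic {ι : Type} (C : Set (ι → ℝ)) : Prop :=
  ∃ (n m : ℕ) (f : Fin n → MvPolynomial ι ℝ) (g : Fin n → Fin m → MvPolynomial ι ℝ),
    ∀ x : ι → ℝ, x ∈ C ↔ ∃ j, MvPolynomial.eval x (f j) = 0 ∧
      ∀ l, 0 < MvPolynomial.eval x (g j l)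

theorem cone_eq {U : List Bool →. List Bool} (hU : OptimalMachine U) {K : List Bool → ℝ}
    (hK : ∃ c : ℝ, ∀ x : List Bool, |K x - KP U x| ≤ c * Real.log ((KP U x : ℝ) + 2))
    (enc : List (List Bool) → List Bool) (henc : Computable enc) (hinj : Function.Injective enc)
    (k : ℕ) (lam : {u : Finset (Fin k) // u.Nonempty} → ℝ) :
    lam ∈ cone K enc k ↔ Pool.Agent.Helper78.KS.Vld U enc k lam := by
  obtain ⟨c0, hc0⟩ := hK
  obtain ⟨c1, hc1, hlin⟩ := Pool.Agent.Helper78.KS.K_linear hU enc henc hinj k
  have hlog2 : 0 < Real.log 2 := Real.log_pos one_lt_two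
  -- the difference of the two sums is at most a constant times `log n`
  obtain ⟨D, hD⟩ : ∃ D : ℝ, ∀ n : ℕ, 2 ≤ n → ∀ A : Fin k → List Bool,
      (∀ i, (A i).length ≤ n) →
      |∑ u, lam u * K (enc (subtuple A u.1)) - ∑ u, lam u * (KP U (enc (subtuple A u.1)) : ℝ)| ≤
        D * Real.log n := by
    refine ⟨∑ u : {u : Finset (Fin k) // u.Nonempty}, |lam u| *
      (|c0| * (|Real.log c1| / Real.log 2 + 1)), fun n hn A hA => ?_⟩
    have hn' : (2 : ℝ) ≤ n := by exact_mod_cast hn
    have hlogn : Real.log 2 ≤ Real.log n := Real.log_le_log (by norm_num) hn'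
    rw [← Finset.sum_sub_distrib, Finset.sum_mul]
    refine (Finset.abs_sum_le_sum_abs _ _).trans (Finset.sum_le_sum fun u _ => ?_)
    rw [← mul_sub, abs_mul, mul_assoc]
    refine mul_le_mul_of_nonneg_left ?_ (abs_nonneg _)
    refine (hc0 _).trans ?_
    have h1 : ((KP U (enc (subtuple A u.1)) : ℝ) + 2) ≤ c1 * n := hlin n hn A hA u.1
    have h0 : (0 : ℝ) ≤ KP U (enc (subtuple A u.1)) := Nat.cast_nonneg _
    have h2 : Real.log ((KP U (enc (subtuple A u.1)) : ℝ) + 2) ≤ Real.log c1 + Real.log n := by
      rw [← Real.log_mul hc1.ne' (by linarith)]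
      exact Real.log_le_log (by linarith) h1
    have h3 : 0 ≤ Real.log ((KP U (enc (subtuple A u.1)) : ℝ) + 2) :=
      Real.log_nonneg (by linarith)
    have h4 : |Real.log c1| ≤ |Real.log c1| / Real.log 2 * Real.log n := by
      rw [div_mul_eq_mul_div, le_div_iff₀ hlog2]
      exact mul_le_mul_of_nonneg_left hlogn (abs_nonneg _)
    calc c0 * Real.log ((KP U (enc (subtuple A u.1)) : ℝ) + 2)
        ≤ |c0| * Real.log ((KP U (enc (subtuple A u.1)) : ℝ) + 2) :=
          mul_le_mul_of_nonneg_right (le_abs_self _) h3
      _ ≤ |c0| * ((|Real.log c1| / Real.log 2 + 1) * Real.log n) := by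
          refine mul_le_mul_of_nonneg_left ?_ (abs_nonneg _)
          have := le_abs_self (Real.log c1)
          linarith
      _ = |c0| * (|Real.log c1| / Real.log 2 + 1) * Real.log n := by ring
  constructor
  · rintro ⟨c, hc⟩
    refine ⟨c + D, fun n hn A hA => ?_⟩
    have h1 := hc n hn A hA
    have h2 := (abs_le.1 (hD n hn A hA)).2
    have e : ∑ u, lam u * (Pool.Agent.Helper981.KP.KPof U
        (enc (Pool.Agent.Helper78.KS.sbt A u.1)) : ℝ) =
        ∑ u, lam u * (KP U (enc (subtuple A u.1)) : ℝ) := rfl
    rw [e]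
    linarith
  · rintro ⟨c, hc⟩
    refine ⟨c + D, fun n hn A hA => ?_⟩
    have h1 := hc n hn A hA
    have h2 := (abs_le.1 (hD n hn A hA)).1
    have e : ∑ u, lam u * (Pool.Agent.Helper981.KP.KPof U
        (enc (Pool.Agent.Helper78.KS.sbt A u.1)) : ℝ) =
        ∑ u, lam u * (KP U (enc (subtuple A u.1)) : ℝ) := rfl
    rw [e] at h1
    linarith

/-- **The cone of linear inequalities for Kolmogorov complexities is not semialgebraic.**
For every version `K` of Kolmogorov complexity, every computable injective encoding of tuples and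
every `k ≥ 4`, the cone `C_k` of the valid coefficient vectors is not a semialgebraic subset of
the space of dimension `2 ^ k - 1`. -/
theorem result : ∀ K : List Bool → ℝ, Complexity K →
    ∀ enc : List (List Bool) → List Bool, Computable enc → Function.Injective enc →
    ∀ k : ℕ, 4 ≤ k → ¬ Semialgebraic (cone K enc k) := by
  rintro K ⟨U, hU, hK⟩ enc henc hinj k hk ⟨n, m, f, g, h⟩
  refine Pool.Agent.Helper78.KS.main (U := U) hU enc henc hinj hk ⟨n, m, f, g, fun c => ?_⟩
  rw [← cone_eq hU hK enc henc hinj k c]
  exact h c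

end Pool.Agent.Results.MP_b69f85_lc.NotSemialgebraic
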